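import Pool.Agent.H23HF.Poly

/-!
# MP_5ac32f_an: hyperinvariant subspaces of all polynomials in the members of a holomorphic family

`HasHyperinvariant (p(A))` is stronger than `HasHyperinvariant A`, as the commutant of `p(A)` contains the one
of `A`. `T κ`, `κ ∈ Ω`, is a holomorphic family of operators on a complex Banach space whose differences have
finite rank, `Ω` an open and connected subset of a complex space `E` of finite dimension.

If ONE member has spectrum of area zero and a resolvent with integrable `log⁺ ‖(z - T κ)⁻¹‖`, then for almost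
all parameters ALL nonconstant polynomials `p(T κ)` have these properties; and if moreover the Weyl spectrum
is infinite, all the operators `p(T κ)` have nontrivial closed hyperinvariant subspaces. Almost all: outside
of a null set of the Haar measure, and on each holomorphic curve through such a parameter outside of a set
which has Hausdorff dimension zero and is null for all measures with locally bounded potential. The
exceptional set does not depend on the polynomial. Constant families: this is a theorem about all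
nonconstant polynomials of a single operator.

Proof. `(w - p(A))⁻¹` is the product of the `(z - A)⁻¹` over the zeros `z` of `p - w`, up to a constant factor,
and the change of variables `w = p(z)` (`H792R2.CE.D4_area` of the starting library) bounds the integral of the
sum of `log⁺ ‖(z - A)⁻¹‖` over these zeros by the integral of `|p'|² log⁺ ‖(z - A)⁻¹‖`, see `H23HF/Poly.lean`. The
zero-one law for the family is the one of `HolomorphicFamilies.lean`.
-/

set_option autoImplicit false

open MeasureTheory Metric Set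
open scoped ENNReal NNReal

namespace Pool.Agent.Results.MP_5ac32f_an.AllPolynomials

/-- The measure `m` has no atoms, and on every disc `|t| < R` it is finite and
`∫ log⁺ (1 / |t - s|) dm(t)` is bounded in `s ∈ ℂ`. -/
def BoundedPotential (m : Measure ℂ) : Prop :=
  (∀ s : ℂ, m {s} = 0) ∧
  ∀ R : ℝ, m (ball (0:ℂ) R) ≠ ⊤ ∧ ∃ C : ℝ≥0, ∀ s : ℂ,
    ∫⁻ t in ball (0:ℂ) R, ENNReal.ofReal (Real.posLog ‖t - s‖⁻¹) ∂m ≤ C

/-- `E` has Hausdorff dimension zero and is null for all measures with locally bounded logarithmic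
potential -/
def Negligible (E : Set ℂ) : Prop :=
  dimH E = 0 ∧ ∀ m : Measure ℂ, BoundedPotential m → m E = 0

section Defs

variable {X : Type} [NormedAddCommGroup X] [NormedSpace ℂ X]

/-- A holomorphic family on the open connected set `Ω` whose members differ from each other by operators
of finite rank -/
structure Family {E : Type} [NormedAddCommGroup E] [NormedSpace ℂ E] (Ω : Set E)
    (T : E → X →L[ℂ] X) : Prop where
  isOpen : IsOpen Ω
  isPreconnected : IsPreconnected Ω
  holomorphic : DifferentiableOn ℂ T Ω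
  finiteRank : ∀ κ ∈ Ω, ∀ κ' ∈ Ω,
    FiniteDimensional ℂ (LinearMap.range ((T κ - T κ' : X →L[ℂ] X) : X →ₗ[ℂ] X))

/-- If one member of the family has the property `G`, then the members have the property `P` for all
parameters outside of a `μ`-null set; and on each holomorphic curve `φ` in `Ω` through a member with the
property `G` all members outside of a negligible set have the property `P`. -/
def Spreads {E : Type} [NormedAddCommGroup E] [NormedSpace ℂ E] [MeasurableSpace E]
    (μ : Measure E) (Ω : Set E) (T : E → X →L[ℂ] X) (G P : (X →L[ℂ] X) → Prop) : Prop :=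
  ((∃ κ₀ ∈ Ω, G (T κ₀)) → μ {κ | κ ∈ Ω ∧ ¬ P (T κ)} = 0) ∧
  ∀ (Ω' : Set ℂ) (φ : ℂ → E), IsOpen Ω' → IsPreconnected Ω' → DifferentiableOn ℂ φ Ω' →
    MapsTo φ Ω' Ω → (∃ t₀ ∈ Ω', G (T (φ t₀))) → Negligible {t | t ∈ Ω' ∧ ¬ P (T (φ t))}

/-- The spectrum of `A` is a null set, and `log⁺ ‖(z - A)⁻¹‖` is integrable on the plane. -/
def LogIntegrable (A : X →L[ℂ] X) : Prop :=
  volume (spectrum ℂ A) = 0 ∧ Integrable (fun z : ℂ => Real.posLog ‖resolvent A z‖)

/-- `A` has a closed subspace, neither `{0}` nor the whole space, which is invariant under every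
bounded operator commuting with `A`. -/
def HasHyperinvariant (A : X →L[ℂ] X) : Prop :=
  ∃ V : Submodule ℂ X, IsClosed (V : Set X) ∧ V ≠ ⊥ ∧ V ≠ ⊤ ∧
    ∀ Q : X →L[ℂ] X, Q * A = A * Q → ∀ x ∈ V, Q x ∈ V

/-- The Weyl spectrum: the points which are in the spectrum of all finite rank perturbations. -/
def weyl (A : X →L[ℂ] X) : Set ℂ :=
  {c | ∀ L : X →L[ℂ] X, FiniteDimensional ℂ (LinearMap.range (L : X →ₗ[ℂ] X)) →
    c ∈ spectrum ℂ (A + L)}

end Defs

theorem logBd {m : Measure ℂ} (hm : BoundedPotential m) : Pool.Agent.R276.CP.LogBd m := by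
  intro R
  obtain ⟨h0, hm⟩ := hm
  obtain ⟨h1, C, hC⟩ := hm R
  refine ⟨C + (m (ball (0:ℂ) R)).toNNReal, ?_, fun s => ?_⟩
  · rw [ENNReal.coe_add, ENNReal.coe_toNNReal h1]
    exact le_add_self
  · calc ∫⁻ t in ball (0:ℂ) R, Pool.Agent.R276.CP.lm ‖t - s‖ ∂m
        = ∫⁻ t in ball (0:ℂ) R, ENNReal.ofReal (Real.posLog ‖t - s‖⁻¹) ∂m := by
          refine lintegral_congr_ae (ae_restrict_of_ae ?_)
          have h2 : ∀ᵐ t ∂m, t ≠ s := by
            rw [ae_iff]
            simpa using h0 s
          filter_upwards [h2] with t ht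
          unfold Pool.Agent.R276.CP.lm
          rw [if_neg (by simpa [sub_eq_zero] using ht)]
      _ ≤ C := hC s
      _ ≤ _ := by rw [ENNReal.coe_add]; exact le_self_add

theorem negl {E : Set ℂ} (h : Pool.Agent.H23HF.Negl E) : Negligible E :=
  ⟨h.1, fun m hm => h.2 m (logBd hm)⟩

theorem spreads {X E : Type} [NormedAddCommGroup X] [NormedSpace ℂ X] [CompleteSpace X]
    [NormedAddCommGroup E] [NormedSpace ℂ E] [FiniteDimensional ℂ E] [MeasurableSpace E]
    [BorelSpace E] (μ : Measure E) [μ.IsAddHaarMeasure] {Ω : Set E} {T : E → X →L[ℂ] X}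
    (hT : Family Ω T) {U : Set ℂ} (hU : IsOpen U) {G P : (X →L[ℂ] X) → Prop}
    (h1 : ∀ A, G A → Pool.Agent.H23HF.Good A U)
    (h2 : ∀ κ₀ ∈ Ω, ∀ κ ∈ Ω, G (T κ₀) → Pool.Agent.H23HF.Good (T κ) U → P (T κ)) :
    Spreads μ Ω T G P := by
  refine ⟨?_, ?_⟩
  · rintro ⟨κ₀, hκ₀, hg⟩
    refine measure_mono_null ?_ (Pool.Agent.H23HF.several μ hT.isOpen hT.isPreconnected
      hT.holomorphic hT.finiteRank hU hκ₀ (h1 _ hg))
    rintro κ ⟨h3, h4⟩
    exact ⟨h3, fun h5 => h4 (h2 κ₀ hκ₀ κ h3 hg h5)⟩
  · rintro Ω' φ hO hC hφ hmaps ⟨t₀, ht₀, hg⟩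
    refine negl ((Pool.Agent.H23HF.main_good (T := fun t => T (φ t)) hO hC
      (hT.holomorphic.comp hφ hmaps) ht₀
      (fun t ht => hT.finiteRank _ (hmaps ht) _ (hmaps ht₀)) hU (h1 _ hg)).mono ?_)
    rintro t ⟨h3, h4⟩
    exact ⟨h3, fun h5 => h4 (h2 _ (hmaps ht₀) _ (hmaps h3) hg h5)⟩

/-- **All polynomials in the members of a holomorphic family.** -/
theorem result (X E : Type) [NormedAddCommGroup X] [NormedSpace ℂ X] [CompleteSpace X]
    [NormedAddCommGroup E] [NormedSpace ℂ E] [FiniteDimensional ℂ E] [MeasurableSpace E]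
    [BorelSpace E] (μ : Measure E) [μ.IsAddHaarMeasure] (Ω : Set E) (T : E → X →L[ℂ] X)
    (hT : Family Ω T) :
    Spreads μ Ω T (fun A => LogIntegrable A)
      (fun A => ∀ p : Polynomial ℂ, 0 < p.degree → LogIntegrable (Polynomial.aeval A p)) ∧
    Spreads μ Ω T (fun A => LogIntegrable A ∧ (weyl A).Infinite)
      (fun A => ∀ p : Polynomial ℂ, 0 < p.degree →
        HasHyperinvariant (Polynomial.aeval A p)) := by
  have hgood : ∀ A : X →L[ℂ] X, LogIntegrable A → Pool.Agent.H23HF.Good A univ := by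
    rintro A ⟨h1, h2⟩
    refine ⟨by rwa [inter_univ], ?_⟩
    rwa [integrableOn_univ]
  have hgood' : ∀ A : X →L[ℂ] X, Pool.Agent.H23HF.Good A univ → LogIntegrable A := by
    rintro A ⟨h1, h2⟩
    refine ⟨by rwa [inter_univ] at h1, ?_⟩
    rwa [integrableOn_univ] at h2
  refine ⟨spreads μ hT isOpen_univ (fun A hA => hgood A hA) ?_,
    spreads μ hT isOpen_univ (fun A hA => hgood A hA.1) ?_⟩
  · intro κ₀ _ κ _ _ hg p hp
    exact hgood' _ (Pool.Agent.H23HF.good_poly (T κ) hg p hp)
  · rintro κ₀ hκ₀ κ hκ ⟨-, hinf⟩ hg p hp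
    exact Pool.Agent.H23HF.hyper_poly (T κ) hg
      (hinf.mono fun c hc => Pool.Agent.H23HF.weyl_sub (hT.finiteRank κ hκ κ₀ hκ₀) hc) p hp

end Pool.Agent.Results.MP_5ac32f_an.AllPolynomials
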