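import Pool.Agent.H23HF.Several

/-!
# MP_5ac32f_an: a zero-one law for holomorphic families of operators, and hyperinvariant subspaces

`T κ`, `κ ∈ Ω`, is a holomorphic family of operators on a complex Banach space, `Ω` is an open and connected
subset of a complex space `E` of finite dimension, and all differences `T κ - T κ'` have finite rank (no bound
of the rank is assumed, and the dependence on `κ` may be transcendental). `U ⊆ ℂ` is open.

* Zero-one law: if for ONE parameter the spectrum meets `U` in a null set and the logarithm of the norm of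
  the resolvent is integrable on `U`, then this holds for almost all parameters (Haar measure); and on each
  holomorphic curve `φ : Ω' → Ω`, `Ω' ⊆ ℂ` open and connected, through such a parameter it holds for all
  `t ∈ Ω'` outside of a set which has Hausdorff dimension zero and is null for all measures with locally
  bounded logarithmic potential. For `E = ℂ`, `φ = id` this is the law for families with one parameter.
* If moreover the Weyl spectrum (which does not depend on the parameter) meets `U` and has at least two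
  points, then `T κ` has a nontrivial closed hyperinvariant subspace for the same parameters.
* If one of the operators is a normal operator on a Hilbert space with spectrum of upper Minkowski
  dimension less than two, then `T κ` is a scalar or has a nontrivial closed hyperinvariant subspace, for
  the same parameters.

The case `E = ℂ`, `T κ = A + κ K`, `A` the good operator, is in the starting file `ExceptionalCouplings`.

Proof. Let `E = ℂ`. The rank is bounded (minors, identity theorem, `Rank.lean`), and the family is locally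
`A + J κ F κ` with `J`, `F` holomorphic (division by powers of the parameter and Gaussian elimination,
`Fac.lean`). For a good parameter `c` near `κ` one has `T κ = T c + J' κ F' κ`, `J' c F' c = 0`, and
`D κ z = det (1 - F' κ (z - T c)⁻¹ J' κ)` is holomorphic in `κ`, equal to one at `c`, with
`log |D| ≤ C (1 + log⁺ ‖(z - T c)⁻¹‖)`. Division by the zeros and the Borel-Caratheodory inequality (`Pot.lean`)
bound the integral of `log⁺ (1 / |D κ z|)` over `κ`, for every measure with bounded potential (`Step.lean`); the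
circle averages of `log |D|` of radius `2⁻ᵏ` (Jensen) measure the number of zeros near `κ`, and a covering
argument gives dimension zero (`Avg.lean`, `Dim.lean`). The discs have radii which do not depend on the good
point, so that the property spreads over `Ω` (`Glob.lean`). Several parameters: the set of the good parameters
is a Borel set (`Meas.lean`), and the law on the real lines through a good point and Fubini's theorem give a
null set (`Several.lean`). `Y271.CO`, `W610.HY`, `R276.CP`, `Y891.NK` belong to the starting library.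
-/

set_option autoImplicit false

open MeasureTheory Metric Set
open scoped ENNReal NNReal

namespace Pool.Agent.Results.MP_5ac32f_an.HolomorphicFamilies

/-- The measure `m` has no atoms, and on every disc `|t| < R` it is finite and
`∫ log⁺ (1 / |t - s|) dm(t)` is bounded in `s ∈ ℂ`. -/
def BoundedPotential (m : Measure ℂ) : Prop :=
  (∀ s : ℂ, m {s} = 0) ∧
  ∀ R : ℝ, m (ball (0:ℂ) R) ≠ ⊤ ∧ ∃ C : ℝ≥0, ∀ s : ℂ,
    ∫⁻ t in ball (0:ℂ) R, ENNReal.ofReal (Real.posLog ‖t - s‖⁻¹) ∂m ≤ C

/-- `E` has Hausdorff dimension zero and is null for all measures with locally bounded logarithmic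
potential -/
def Negligible (E : Set ℂ) : Prop :=
  dimH E = 0 ∧ ∀ m : Measure ℂ, BoundedPotential m → m E = 0

section Defs

variable {X : Type} [NormedAddCommGroup X] [NormedSpace ℂ X]

/-- A holomorphic family on the open connected set `Ω` whose members differ from each other by operators
of finite rank -/
structure Family {E : Type} [NormedAddCommGroup E] [NormedSpace ℂ E] (Ω : Set E)
    (T : E → X →L[ℂ] X) : Prop where
  isOpen : IsOpen Ω
  isPreconnected : IsPreconnected Ω
  holomorphic : DifferentiableOn ℂ T Ω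
  finiteRank : ∀ κ ∈ Ω, ∀ κ' ∈ Ω,
    FiniteDimensional ℂ (LinearMap.range ((T κ - T κ' : X →L[ℂ] X) : X →ₗ[ℂ] X))

/-- If one member of the family has the property `G`, then the members have the property `P` for all
parameters outside of a `μ`-null set; and on each holomorphic curve `φ` in `Ω` through a member with the
property `G` all members outside of a negligible set have the property `P`. -/
def Spreads {E : Type} [NormedAddCommGroup E] [NormedSpace ℂ E] [MeasurableSpace E]
    (μ : Measure E) (Ω : Set E) (T : E → X →L[ℂ] X) (G P : (X →L[ℂ] X) → Prop) : Prop :=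
  ((∃ κ₀ ∈ Ω, G (T κ₀)) → μ {κ | κ ∈ Ω ∧ ¬ P (T κ)} = 0) ∧
  ∀ (Ω' : Set ℂ) (φ : ℂ → E), IsOpen Ω' → IsPreconnected Ω' → DifferentiableOn ℂ φ Ω' →
    MapsTo φ Ω' Ω → (∃ t₀ ∈ Ω', G (T (φ t₀))) → Negligible {t | t ∈ Ω' ∧ ¬ P (T (φ t))}

/-- The spectrum of `A` meets `U` in a null set, and `log⁺ ‖(z - A)⁻¹‖` is integrable on `U`. -/
def LogIntegrable (A : X →L[ℂ] X) (U : Set ℂ) : Prop :=
  volume (spectrum ℂ A ∩ U) = 0 ∧ IntegrableOn (fun z : ℂ => Real.posLog ‖resolvent A z‖) U

/-- `A` has a closed subspace, neither `{0}` nor the whole space, which is invariant under every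
bounded operator commuting with `A`. -/
def HasHyperinvariant (A : X →L[ℂ] X) : Prop :=
  ∃ V : Submodule ℂ X, IsClosed (V : Set X) ∧ V ≠ ⊥ ∧ V ≠ ⊤ ∧
    ∀ Q : X →L[ℂ] X, Q * A = A * Q → ∀ x ∈ V, Q x ∈ V

/-- The Weyl spectrum: the points which are in the spectrum of all finite rank perturbations. -/
def weyl (A : X →L[ℂ] X) : Set ℂ :=
  {c | ∀ L : X →L[ℂ] X, FiniteDimensional ℂ (LinearMap.range (L : X →ₗ[ℂ] X)) →
    c ∈ spectrum ℂ (A + L)}

end Defs

/-- the upper Minkowski dimension of `E` is less than two -/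
def Thin (E : Set ℂ) : Prop :=
  ∃ C ε : ℝ, 0 < ε ∧ ∀ δ : ℝ, 0 < δ → δ ≤ 1 →
    volume {z : ℂ | infDist z E ≤ δ} ≤ ENNReal.ofReal (C * δ ^ ε)

theorem logBd {m : Measure ℂ} (hm : BoundedPotential m) : Pool.Agent.R276.CP.LogBd m := by
  intro R
  obtain ⟨h0, hm⟩ := hm
  obtain ⟨h1, C, hC⟩ := hm R
  refine ⟨C + (m (ball (0:ℂ) R)).toNNReal, ?_, fun s => ?_⟩
  · rw [ENNReal.coe_add, ENNReal.coe_toNNReal h1]
    exact le_add_self
  · calc ∫⁻ t in ball (0:ℂ) R, Pool.Agent.R276.CP.lm ‖t - s‖ ∂m
        = ∫⁻ t in ball (0:ℂ) R, ENNReal.ofReal (Real.posLog ‖t - s‖⁻¹) ∂m := by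
          refine lintegral_congr_ae (ae_restrict_of_ae ?_)
          have h2 : ∀ᵐ t ∂m, t ≠ s := by
            rw [ae_iff]
            simpa using h0 s
          filter_upwards [h2] with t ht
          unfold Pool.Agent.R276.CP.lm
          rw [if_neg (by simpa [sub_eq_zero] using ht)]
      _ ≤ C := hC s
      _ ≤ _ := by rw [ENNReal.coe_add]; exact le_self_add

theorem negl {E : Set ℂ} (h : Pool.Agent.H23HF.Negl E) : Negligible E :=
  ⟨h.1, fun m hm => h.2 m (logBd hm)⟩

theorem spreads {X E : Type} [NormedAddCommGroup X] [NormedSpace ℂ X] [CompleteSpace X]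
    [NormedAddCommGroup E] [NormedSpace ℂ E] [FiniteDimensional ℂ E] [MeasurableSpace E]
    [BorelSpace E] (μ : Measure E) [μ.IsAddHaarMeasure] {Ω : Set E} {T : E → X →L[ℂ] X}
    (hT : Family Ω T) {U : Set ℂ} (hU : IsOpen U) {G P : (X →L[ℂ] X) → Prop}
    (h1 : ∀ A, G A → Pool.Agent.H23HF.Good A U)
    (h2 : ∀ κ₀ ∈ Ω, ∀ κ ∈ Ω, G (T κ₀) → Pool.Agent.H23HF.Good (T κ) U → P (T κ)) :
    Spreads μ Ω T G P := by
  refine ⟨?_, ?_⟩
  · rintro ⟨κ₀, hκ₀, hg⟩
    refine measure_mono_null ?_ (Pool.Agent.H23HF.several μ hT.isOpen hT.isPreconnected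
      hT.holomorphic hT.finiteRank hU hκ₀ (h1 _ hg))
    rintro κ ⟨h3, h4⟩
    exact ⟨h3, fun h5 => h4 (h2 κ₀ hκ₀ κ h3 hg h5)⟩
  · rintro Ω' φ hO hC hφ hmaps ⟨t₀, ht₀, hg⟩
    refine negl ((Pool.Agent.H23HF.main_good (T := fun t => T (φ t)) hO hC
      (hT.holomorphic.comp hφ hmaps) ht₀
      (fun t ht => hT.finiteRank _ (hmaps ht) _ (hmaps ht₀)) hU (h1 _ hg)).mono ?_)
    rintro t ⟨h3, h4⟩
    exact ⟨h3, fun h5 => h4 (h2 _ (hmaps ht₀) _ (hmaps h3) hg h5)⟩

/-- **Zero-one law and hyperinvariant subspaces for holomorphic families.** -/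
theorem result :
    -- families on Banach spaces
    (∀ (X E : Type) [NormedAddCommGroup X] [NormedSpace ℂ X] [CompleteSpace X]
      [NormedAddCommGroup E] [NormedSpace ℂ E] [FiniteDimensional ℂ E] [MeasurableSpace E]
      [BorelSpace E] (μ : Measure E) [μ.IsAddHaarMeasure] (Ω : Set E) (T : E → X →L[ℂ] X)
      (U : Set ℂ), Family Ω T → IsOpen U →
      Spreads μ Ω T (fun A => LogIntegrable A U) (fun A => LogIntegrable A U) ∧
      Spreads μ Ω T
        (fun A => LogIntegrable A U ∧ (weyl A ∩ U).Nonempty ∧ (weyl A).Nontrivial)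
        (fun A => HasHyperinvariant A)) ∧
    -- families on Hilbert spaces with one normal member of thin spectrum
    (∀ (H E : Type) [NormedAddCommGroup H] [InnerProductSpace ℂ H] [CompleteSpace H]
      [NormedAddCommGroup E] [NormedSpace ℂ E] [FiniteDimensional ℂ E] [MeasurableSpace E]
      [BorelSpace E] (μ : Measure E) [μ.IsAddHaarMeasure] (Ω : Set E) (T : E → H →L[ℂ] H),
      Family Ω T →
      Spreads μ Ω T (fun A => IsStarNormal A ∧ Thin (spectrum ℂ A))
        (fun A => HasHyperinvariant A ∨ ∃ c : ℂ, A = c • (1 : H →L[ℂ] H))) := by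
  refine ⟨?_, ?_⟩
  · intro X E _ _ _ _ _ _ _ _ μ _ Ω T U hT hU
    refine ⟨spreads μ hT hU (fun A hA => hA) (fun κ₀ _ κ _ _ h => h),
      spreads μ hT hU (fun A hA => hA.1) ?_⟩
    rintro κ₀ hκ₀ κ hκ ⟨-, ⟨c₁, hc₁, hc₁U⟩, h2⟩ hg
    obtain ⟨c₂, hc₂, hne⟩ := h2.exists_ne c₁
    exact Pool.Agent.H23HF.hyper_of_good hU hg
      (Pool.Agent.H23HF.weyl_sub (hT.finiteRank κ hκ κ₀ hκ₀) hc₁) hc₁U
      (Pool.Agent.H23HF.weyl_sub (hT.finiteRank κ hκ κ₀ hκ₀) hc₂) hne
  · intro H E _ _ _ _ _ _ _ _ μ _ Ω T hT
    refine spreads μ hT isOpen_univ (fun A hA => Pool.Agent.H23HF.good_thin A hA.1 hA.2) ?_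
    rintro κ₀ hκ₀ κ hκ ⟨hN, -⟩ hg
    by_cases h : ∃ c : ℂ, T κ = c • (1 : H →L[ℂ] H)
    · exact Or.inr h
    · exact Or.inl (Pool.Agent.H23HF.hyper_normal (T κ₀) (T κ) hN
        (hT.finiteRank κ hκ κ₀ hκ₀) hg h)

end Pool.Agent.Results.MP_5ac32f_an.HolomorphicFamilies
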