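import Pool.Agent.H43K.Nuc

/-!
# MP_5ac32f_an: hyperinvariant subspaces of perturbed singular integral operators

Let `X` be a complex Banach space of functions on the circle on which the continuous functions act by multiplication
and on which the Riesz projection `P` is bounded, for instance `L^p` with `1 < p < ∞`, also with Muckenhoupt weights. Let
`a` and `b` be Hölder continuous with exponents greater than one half, and let `A = a P + b (1 - P)`, a singular integral
operator.

1. For every operator `K` of finite rank the operator `A + κ K` is scalar or has a nontrivial closed hyperinvariant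
   subspace for all complex `κ` outside of a set of Hausdorff dimension zero.
2. There are positive numbers `s j`, which depend only on `a`, `b` and the space, such that for all `K = ∑ f j ⊗ x j` with
   `∑ ‖f j‖² < ∞`, `∑ ‖x j‖² < ∞`, `‖x j‖ ≤ s j` the same holds for almost every complex `κ`, for almost every real `κ`, and
   almost everywhere for all measures with locally bounded logarithmic potential.
3. If for some `z` off the curves `a`, `b` the function `(a - z) / (b - z)` has a nonzero winding number, then for EVERY norm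
   limit `K` of operators of finite rank `A + K` is scalar or has a nontrivial closed hyperinvariant subspace.

The starting result `SingularIntegrals` is the case `K = 0`; `ExceptionalCouplings` and `NuclearCouplings` are for
operators whose spectrum meets an open set in a null set and whose resolvent is log-integrable there.

Proof. For `z` off the curves there is a factorisation `(a - z) / (b - z) = ζ^k exp u exp v` with `u` analytic and `v`
coanalytic, with absolutely summable Fourier coefficients. With it, `A - z` has a left inverse for `k ≥ 0` and a right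
inverse for `k ≤ 0` (`Pool.Agent.H43K.one_sided`). If `k ≠ 0` for some `z`, then `A - z` is one-sided invertible and not
invertible; operators of small norm do not change this (`small_right`, `small_left`), and after a perturbation of finite
rank there still is an eigenvector or an eigenfunctional, by linear algebra (`ker_of_surj`). If `k = 0` for all `z`, then
the spectrum of `A` is contained in the two curves, which are null sets, the resolvent is log-integrable
(`R276.SI`, `Y283.TO`), and if `a` or `b` is not constant then all points of its curve are accumulation points of the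
spectrum, so that the theorems of `Y271.CO` and `R276.NC` apply. If `a` and `b` are constants `α`, `β` then
`(A + K - α) (A + K - β)` is compact, and the theorem of Lomonosov applies.
-/

set_option autoImplicit false

open MeasureTheory Metric Set Filter Topology
open scoped ENNReal NNReal

namespace Pool.Agent.Results.MP_5ac32f_an.SingularIntegralCouplings

/-- `X` is a Banach space of functions on the circle `ℝ/ℤ`: `e n` are the exponentials `exp (2πint)`, their
span is dense, `ε₀` is the mean, `M a` is the multiplication by the continuous function `a`, and `P` is the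
Riesz projection, the bounded operator with `P (e n) = e n` for `n ≥ 0` and `P (e n) = 0` for `n < 0`. -/
structure CircleSpace {X : Type} [NormedAddCommGroup X] [NormedSpace ℂ X] (e : ℤ → X)
    (ε₀ : X →L[ℂ] ℂ) (M : C(UnitAddCircle, ℂ) → (X →L[ℂ] X)) (P : X →L[ℂ] X) : Prop where
  dense : Dense (Submodule.span ℂ (Set.range e) : Set X)
  mean : ∀ n : ℤ, ε₀ (e n) = if n = 0 then 1 else 0
  add : ∀ a b, M (a + b) = M a + M b
  smul : ∀ (c : ℂ) (a : C(UnitAddCircle, ℂ)), M (c • a) = c • M a
  one : M 1 = 1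
  mul : ∀ a b, M (a * b) = M a * M b
  bounded : ∃ K : ℝ, ∀ a, ‖M a‖ ≤ K * ‖a‖
  shift : ∀ m n : ℤ, M (fourier m) (e n) = e (n + m)
  riesz : ∀ n : ℤ, P (e n) = if 0 ≤ n then e n else 0

/-- The measure `m` has no atoms, and on every disc `|t| < R` it is finite and
`∫ log⁺ (1 / |t - s|) dm(t)` is bounded in `s ∈ ℂ`. -/
def BoundedPotential (m : Measure ℂ) : Prop :=
  (∀ s : ℂ, m {s} = 0) ∧
  ∀ R : ℝ, m (ball (0 : ℂ) R) ≠ ⊤ ∧ ∃ C : ℝ≥0, ∀ s : ℂ,
    ∫⁻ t in ball (0 : ℂ) R, ENNReal.ofReal (Real.posLog ‖t - s‖⁻¹) ∂m ≤ C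

section Defs

variable {X : Type} [NormedAddCommGroup X] [NormedSpace ℂ X]

/-- The singular integral operator `f ↦ a (P f) + b (f - P f)`. -/
noncomputable def sing (M : C(UnitAddCircle, ℂ) → (X →L[ℂ] X)) (P : X →L[ℂ] X)
    (a b : C(UnitAddCircle, ℂ)) : X →L[ℂ] X :=
  M a * P + M b * (1 - P)

/-- `T` is a scalar multiple of the identity, or it has a closed subspace, neither `{0}` nor the whole space, which
is invariant under every bounded operator commuting with `T`. -/
def ScalarOrHyperinvariant (T : X →L[ℂ] X) : Prop :=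
  (∃ c : ℂ, T = c • (1 : X →L[ℂ] X)) ∨
    ∃ V : Submodule ℂ X, IsClosed (V : Set X) ∧ V ≠ ⊥ ∧ V ≠ ⊤ ∧
      ∀ Q : X →L[ℂ] X, Q * T = T * Q → ∀ x ∈ V, Q x ∈ V

/-- The operator `K` has finite rank. -/
def FiniteRank (K : X →L[ℂ] X) : Prop := FiniteDimensional ℂ (LinearMap.range (K : X →ₗ[ℂ] X))

/-- `K` is the operator `y ↦ ∑ f j (y) x j`, with `∑ ‖f j‖² < ∞` and `∑ ‖x j‖² < ∞`. -/
structure Represents (K : X →L[ℂ] X) (f : ℕ → (X →L[ℂ] ℂ)) (x : ℕ → X) : Prop where
  functionals : Summable (fun j => ‖f j‖ ^ 2)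
  vectors : Summable (fun j => ‖x j‖ ^ 2)
  sum : ∀ y, HasSum (fun j => f j y • x j) (K y)

end Defs

/-- For some `z` which is not a value of `b` the function `(a - z) / (b - z)` has no zeros and its winding number is not
zero: it is `exp (2πikt) exp (g t)` with an integer `k ≠ 0` and a continuous function `g` on the circle. -/
def NonzeroWinding (a b : C(UnitAddCircle, ℂ)) : Prop :=
  ∃ (z : ℂ) (k : ℤ) (g : C(UnitAddCircle, ℂ)), k ≠ 0 ∧ (∀ t, b t ≠ z) ∧
    ∀ t, a t - z = (b t - z) * (fourier k t * Complex.exp (g t))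

open Pool.Agent.Y283.TO Pool.Agent.R276.SI Pool.Agent.H43K

theorem HD_mono (f : ℝ → ℂ) (L q L' q' : ℝ) (hL : 0 < L) (hq : 0 ≤ q) (hL' : L ≤ L') (hq' : q ≤ q')
    (h : HD f L q) : HD f L' q' := by
  intro n s t hst
  refine (h n s t hst).trans ?_
  have h1 : q ^ n ≤ q' ^ n := pow_le_pow_left₀ hq hq' n
  have h2 : 0 ≤ q ^ n := pow_nonneg hq n
  exact mul_le_mul hL' h1 h2 (hL.le.trans hL')

theorem exists_HD (a b : C(UnitAddCircle, ℂ)) (Ca α Cb β : ℝ≥0) (hα : 1 / 2 < α) (hβ : 1 / 2 < β)
    (ha : HolderWith Ca α a) (hb : HolderWith Cb β b) :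
    ∃ L q : ℝ, 0 < L ∧ 1 / 2 ≤ q ∧ 2 * q ^ 2 < 1 ∧ HD (rl a) L q ∧ HD (rl b) L q := by
  obtain ⟨L, q, hL, hq, hq2, hHD⟩ := HD_of_holder a Ca α hα ha
  obtain ⟨L', q', hL', hq', hq2', hHD'⟩ := HD_of_holder b Cb β hβ hb
  refine ⟨max L L', max q q', lt_max_of_lt_left hL, le_max_of_le_left hq, ?_, ?_, ?_⟩
  · rcases max_choice q q' with h1 | h1
    · rw [h1]; exact hq2
    · rw [h1]; exact hq2'
  · exact HD_mono _ L q _ _ hL (by linarith) (le_max_left _ _) (le_max_left _ _) hHD
  · exact HD_mono _ L' q' _ _ hL' (by linarith) (le_max_right _ _) (le_max_right _ _) hHD'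

theorem sio {X : Type} [NormedAddCommGroup X] [NormedSpace ℂ X] {e : ℤ → X}
    {ε₀ : X →L[ℂ] ℂ} {M : C(UnitAddCircle, ℂ) → (X →L[ℂ] X)} {P : X →L[ℂ] X}
    (hX : CircleSpace e ε₀ M P) : SIO e ε₀ M P := by
  refine ⟨hX.dense, hX.add, hX.smul, hX.one, hX.mul, ?_, hX.shift, hX.riesz, hX.mean⟩
  obtain ⟨K, hK⟩ := hX.bounded
  exact ⟨max K 0, le_max_right _ _, fun f =>
    (hK f).trans (mul_le_mul_of_nonneg_right (le_max_left _ _) (norm_nonneg _))⟩

theorem logBd {m : Measure ℂ} (hm : BoundedPotential m) : Pool.Agent.R276.CP.LogBd m := by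
  intro R
  obtain ⟨h0, hm⟩ := hm
  obtain ⟨h1, C, hC⟩ := hm R
  refine ⟨C + (m (ball (0 : ℂ) R)).toNNReal, ?_, fun s => ?_⟩
  · rw [ENNReal.coe_add, ENNReal.coe_toNNReal h1]
    exact le_add_self
  · calc ∫⁻ t in ball (0 : ℂ) R, Pool.Agent.R276.CP.lm ‖t - s‖ ∂m
        = ∫⁻ t in ball (0 : ℂ) R, ENNReal.ofReal (Real.posLog ‖t - s‖⁻¹) ∂m := by
          refine lintegral_congr_ae (ae_restrict_of_ae ?_)
          have h2 : ∀ᵐ t ∂m, t ≠ s := by
            rw [ae_iff]
            simpa using h0 s
          filter_upwards [h2] with t ht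
          unfold Pool.Agent.R276.CP.lm
          rw [if_neg (by simpa [sub_eq_zero] using ht)]
      _ ≤ C := hC s
      _ ≤ _ := by rw [ENNReal.coe_add]; exact le_self_add

/-- **Perturbations of singular integral operators have hyperinvariant subspaces.** -/
theorem result (X : Type) [NormedAddCommGroup X] [NormedSpace ℂ X] [CompleteSpace X] (e : ℤ → X)
    (ε₀ : X →L[ℂ] ℂ) (M : C(UnitAddCircle, ℂ) → (X →L[ℂ] X)) (P : X →L[ℂ] X)
    (hX : CircleSpace e ε₀ M P) (a b : C(UnitAddCircle, ℂ)) (Ca α Cb β : ℝ≥0)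
    (hα : 1 / 2 < α) (hβ : 1 / 2 < β) (ha : HolderWith Ca α a) (hb : HolderWith Cb β b) :
    (∀ K : X →L[ℂ] X, FiniteRank K →
      dimH {κ : ℂ | ¬ ScalarOrHyperinvariant (sing M P a b + κ • K)} = 0) ∧
    (∃ s : ℕ → ℝ, (∀ j, 0 < s j) ∧
      ∀ (K : X →L[ℂ] X) (f : ℕ → (X →L[ℂ] ℂ)) (x : ℕ → X), Represents K f x → (∀ j, ‖x j‖ ≤ s j) →
        (∀ m : Measure ℂ, BoundedPotential m → ∀ᵐ κ ∂m, ScalarOrHyperinvariant (sing M P a b + κ • K)) ∧
        (∀ᵐ κ : ℂ, ScalarOrHyperinvariant (sing M P a b + κ • K)) ∧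
        (∀ᵐ κ : ℝ, ScalarOrHyperinvariant (sing M P a b + (κ : ℂ) • K))) ∧
    (NonzeroWinding a b → ∀ K ∈ closure {F : X →L[ℂ] X | FiniteRank F},
      ScalarOrHyperinvariant (sing M P a b + K)) := by
  obtain ⟨L, q, hL, hq, hq2, hA, hB⟩ := exists_HD a b Ca α Cb β hα hβ ha hb
  have h := sio hX
  refine ⟨fun K hK => core h a b L q hL hq hq2 hA hB K hK, ?_, ?_⟩
  · obtain ⟨s, hs, hmain⟩ := core_nuc h a b L q hL hq hq2 hA hB
    refine ⟨s, hs, fun K f x hK hx => ?_⟩
    have main := hmain K f x ⟨hK.1, hK.2, hK.3⟩ hx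
    refine ⟨fun m hm => main m (logBd hm), main volume Pool.Agent.Y891.NK.main_vol.1, ?_⟩
    have h := main (Measure.map (fun t : ℝ => (t : ℂ)) volume) Pool.Agent.Y891.NK.main_vol.2
    exact ae_of_ae_map Complex.continuous_ofReal.measurable.aemeasurable h
  · rintro ⟨z, k, g, hk, hbz, hf⟩ K hK
    have haz : ∀ t, a t ≠ z := by
      intro t ht
      have h1 := hf t
      rw [ht, sub_self] at h1
      have h2 : (fourier k t : ℂ) ≠ 0 := by
        intro h0
        have := norm_fourier_apply k t
        rw [h0, norm_zero] at this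
        exact zero_ne_one this
      exact mul_ne_zero (sub_ne_zero.2 (hbz t)) (mul_ne_zero h2 (Complex.exp_ne_zero _)) h1.symm
    obtain ⟨C, -, hfac⟩ := Fac.main a b L q hL hq hq2 hA hB ‖z‖
    obtain ⟨l, c, d, w, hc, hd, h1, h2, -⟩ := hfac z le_rfl haz hbz
    have hkl : k = l := by
      refine winding_unique k l g (ps c + psm d) ?_
      ext t
      have h3 := congrArg (fun u : CT => u t) h1
      simp only [ContinuousMap.sub_apply, ContinuousMap.mul_apply, cexp_apply] at h3
      have h4 : (algebraMap ℂ CT z) t = z := rfl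
      rw [h4, hf t] at h3
      have h5 : b t - z ≠ 0 := sub_ne_zero.2 (hbz t)
      rw [ContinuousMap.mul_apply, ContinuousMap.mul_apply, cexp_apply, cexp_apply,
        ContinuousMap.add_apply, Complex.exp_add]
      refine mul_left_cancel₀ h5 ?_
      rw [h3]
      ring
    rw [← hkl] at h1
    by_cases hs : ∃ c : ℂ, sing M P a b + K = c • (1 : X →L[ℂ] X)
    · exact Or.inl hs
    right
    push Not at hs
    rcases index_lim h a b z k c d w hc hd hk h1 h2 K hK with ⟨x, hx, hxe⟩ | ⟨y, hy, hye⟩
    · exact hyp_of_eig _ hs z x hx hxe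
    · exact hyp_of_coeig _ hs z y hy hye

end Pool.Agent.Results.MP_5ac32f_an.SingularIntegralCouplings
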