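import Pool.Agent.H43K.ToepB

/-!
# MP_5ac32f_an: hyperinvariant subspaces of perturbed Toeplitz operators

Let `X` be a complex Banach space of functions on the circle on which the continuous functions act by multiplication
and on which the Riesz projection `P` is bounded, for instance `L^p` with `1 < p < ∞`, also with Muckenhoupt weights. Its
Hardy space `H` is the range of `P`. Let `φ` be Hölder continuous with an exponent greater than one half and let
`T y = P (φ y)` be the Toeplitz operator on `H`.

1. For every operator `K` of finite rank on `H` the operator `T + κ K` is scalar or has a nontrivial closed hyperinvariant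
   subspace for all complex `κ` outside of a set of Hausdorff dimension zero.
2. There are positive numbers `s j`, which depend only on `φ` and the space, such that for all `K = ∑ f j ⊗ x j` with
   `∑ ‖f j‖² < ∞`, `∑ ‖x j‖² < ∞`, `‖x j‖ ≤ s j` the same holds for almost every complex `κ`, for almost every real `κ`, and
   almost everywhere for all measures with locally bounded logarithmic potential.
3. If the curve `φ` has a nonzero winding number about some point `z`, then for EVERY norm limit `K` of operators of finite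
   rank `T + K` is scalar or has a nontrivial closed hyperinvariant subspace.

The starting result `ToeplitzHolder` is the case `K = 0`. In 1 and 2 the remaining curves are those which wind about no
point, for example the curves which run along an arc and back: there `T` has a thin spectrum and neither eigenvectors nor
eigenfunctionals need exist.

Proof. The operator `A = φ P + β (1 - P)` on `X`, with a constant `β` outside of the disc in question, satisfies
`P A = T P`. Inverses, one-sided inverses, eigenvectors and eigenfunctionals of `A - z`, `z ≠ β`,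
are thus transferred to `T - z` (`right_tr`, `left_tr`, `eig_tr`, `coeig_tr`, `res_tr`), and conversely the invertibility of
`T - z` gives the invertibility of `A - z` (`res_conv`), so that `φ` does not take the value `z`. With the Wiener-Hopf
factorisations of `φ - z` and the bounds of `R276.SI`, `Y283.TO` this gives the three cases `Tri T`: either `T - z` is
one-sided invertible and not invertible for some `z`, with an eigenvector or an eigenfunctional, or `T` is scalar, or the
spectrum of `T` is the curve `φ`, a null set without isolated points, and the resolvent is log-integrable on a disc which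
contains it. In the first case the perturbation theorems of `H43K` apply (`ind_lim`), in the last case those of `Y271.CO` and
`R276.NC`.
-/

set_option autoImplicit false

open MeasureTheory Metric Set Filter Topology
open scoped ENNReal NNReal

namespace Pool.Agent.Results.MP_5ac32f_an.ToeplitzCouplings

/-- `X` is a Banach space of functions on the circle `ℝ/ℤ`: `e n` are the exponentials `exp (2πint)`, their
span is dense, `ε₀` is the mean, `M a` is the multiplication by the continuous function `a`, and `P` is the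
Riesz projection, the bounded operator with `P (e n) = e n` for `n ≥ 0` and `P (e n) = 0` for `n < 0`. -/
structure CircleSpace {X : Type} [NormedAddCommGroup X] [NormedSpace ℂ X] (e : ℤ → X)
    (ε₀ : X →L[ℂ] ℂ) (M : C(UnitAddCircle, ℂ) → (X →L[ℂ] X)) (P : X →L[ℂ] X) : Prop where
  dense : Dense (Submodule.span ℂ (Set.range e) : Set X)
  mean : ∀ n : ℤ, ε₀ (e n) = if n = 0 then 1 else 0
  add : ∀ a b, M (a + b) = M a + M b
  smul : ∀ (c : ℂ) (a : C(UnitAddCircle, ℂ)), M (c • a) = c • M a
  one : M 1 = 1
  mul : ∀ a b, M (a * b) = M a * M b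
  bounded : ∃ K : ℝ, ∀ a, ‖M a‖ ≤ K * ‖a‖
  shift : ∀ m n : ℤ, M (fourier m) (e n) = e (n + m)
  riesz : ∀ n : ℤ, P (e n) = if 0 ≤ n then e n else 0

/-- The measure `m` has no atoms, and on every disc `|t| < R` it is finite and
`∫ log⁺ (1 / |t - s|) dm(t)` is bounded in `s ∈ ℂ`. -/
def BoundedPotential (m : Measure ℂ) : Prop :=
  (∀ s : ℂ, m {s} = 0) ∧
  ∀ R : ℝ, m (ball (0 : ℂ) R) ≠ ⊤ ∧ ∃ C : ℝ≥0, ∀ s : ℂ,
    ∫⁻ t in ball (0 : ℂ) R, ENNReal.ofReal (Real.posLog ‖t - s‖⁻¹) ∂m ≤ C

section Defs

variable {Y : Type} [NormedAddCommGroup Y] [NormedSpace ℂ Y]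

/-- The Hardy space `{x | x - P x = 0}`, with the norm of the whole space. -/
def hardy (P : Y →L[ℂ] Y) : Submodule ℂ Y := LinearMap.ker ((1 - P : Y →L[ℂ] Y) : Y →ₗ[ℂ] Y)

/-- `T` is a scalar multiple of the identity, or it has a closed subspace, neither `{0}` nor the whole space, which
is invariant under every bounded operator commuting with `T`. -/
def ScalarOrHyperinvariant (T : Y →L[ℂ] Y) : Prop :=
  (∃ c : ℂ, T = c • (1 : Y →L[ℂ] Y)) ∨
    ∃ V : Submodule ℂ Y, IsClosed (V : Set Y) ∧ V ≠ ⊥ ∧ V ≠ ⊤ ∧
      ∀ Q : Y →L[ℂ] Y, Q * T = T * Q → ∀ x ∈ V, Q x ∈ V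

/-- The operator `K` has finite rank. -/
def FiniteRank (K : Y →L[ℂ] Y) : Prop := FiniteDimensional ℂ (LinearMap.range (K : Y →ₗ[ℂ] Y))

/-- `K` is the operator `y ↦ ∑ f j (y) x j`, with `∑ ‖f j‖² < ∞` and `∑ ‖x j‖² < ∞`. -/
structure Represents (K : Y →L[ℂ] Y) (f : ℕ → (Y →L[ℂ] ℂ)) (x : ℕ → Y) : Prop where
  functionals : Summable (fun j => ‖f j‖ ^ 2)
  vectors : Summable (fun j => ‖x j‖ ^ 2)
  sum : ∀ y, HasSum (fun j => f j y • x j) (K y)

/-- `T + κ K` is good for all complex `κ` outside of a set of Hausdorff dimension zero, for all `K` of finite rank. -/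
def FiniteCouplings (T : Y →L[ℂ] Y) : Prop :=
  ∀ K : Y →L[ℂ] Y, FiniteRank K → dimH {κ : ℂ | ¬ ScalarOrHyperinvariant (T + κ • K)} = 0

/-- There are positive numbers `s j` such that for all `K` which are represented by `f`, `x` with `‖x j‖ ≤ s j` the
operator `T + κ K` is good for almost all `κ`, complex, real, and for all measures with bounded potential. -/
def NuclearCouplings (T : Y →L[ℂ] Y) : Prop :=
  ∃ s : ℕ → ℝ, (∀ j, 0 < s j) ∧
    ∀ (K : Y →L[ℂ] Y) (f : ℕ → (Y →L[ℂ] ℂ)) (x : ℕ → Y), Represents K f x → (∀ j, ‖x j‖ ≤ s j) →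
      (∀ m : Measure ℂ, BoundedPotential m → ∀ᵐ κ ∂m, ScalarOrHyperinvariant (T + κ • K)) ∧
      (∀ᵐ κ : ℂ, ScalarOrHyperinvariant (T + κ • K)) ∧
      (∀ᵐ κ : ℝ, ScalarOrHyperinvariant (T + (κ : ℂ) • K))

/-- `T + K` is good for all norm limits `K` of operators of finite rank. -/
def LimitCouplings (T : Y →L[ℂ] Y) : Prop :=
  ∀ K ∈ closure {F : Y →L[ℂ] Y | FiniteRank F}, ScalarOrHyperinvariant (T + K)

/-- `T` is the Toeplitz operator with symbol `φ`: `T y = P (φ y)` for all `y` in the Hardy space. -/
def IsToeplitz (M : C(UnitAddCircle, ℂ) → (Y →L[ℂ] Y)) (P : Y →L[ℂ] Y) (φ : C(UnitAddCircle, ℂ))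
    (T : hardy P →L[ℂ] hardy P) : Prop :=
  ∀ y : hardy P, ((T y : hardy P) : Y) = P (M φ (y : Y))

end Defs

/-- The curve `φ` does not pass through some point `z`, about which its winding number is not zero:
`φ t - z = exp (2πikt) exp (g t)` with an integer `k ≠ 0` and a continuous function `g` on the circle. -/
def NonzeroWinding (φ : C(UnitAddCircle, ℂ)) : Prop :=
  ∃ (z : ℂ) (k : ℤ) (g : C(UnitAddCircle, ℂ)), k ≠ 0 ∧
    ∀ t, φ t - z = fourier k t * Complex.exp (g t)

open Pool.Agent.Y283.TO Pool.Agent.R276.SI Pool.Agent.H43K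

theorem sio {X : Type} [NormedAddCommGroup X] [NormedSpace ℂ X] {e : ℤ → X}
    {ε₀ : X →L[ℂ] ℂ} {M : C(UnitAddCircle, ℂ) → (X →L[ℂ] X)} {P : X →L[ℂ] X}
    (hX : CircleSpace e ε₀ M P) : SIO e ε₀ M P := by
  refine ⟨hX.dense, hX.add, hX.smul, hX.one, hX.mul, ?_, hX.shift, hX.riesz, hX.mean⟩
  obtain ⟨K, hK⟩ := hX.bounded
  exact ⟨max K 0, le_max_right _ _, fun f =>
    (hK f).trans (mul_le_mul_of_nonneg_right (le_max_left _ _) (norm_nonneg _))⟩

theorem logBd {m : Measure ℂ} (hm : BoundedPotential m) : Pool.Agent.R276.CP.LogBd m := by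
  intro R
  obtain ⟨h0, hm⟩ := hm
  obtain ⟨h1, C, hC⟩ := hm R
  refine ⟨C + (m (ball (0 : ℂ) R)).toNNReal, ?_, fun s => ?_⟩
  · rw [ENNReal.coe_add, ENNReal.coe_toNNReal h1]
    exact le_add_self
  · calc ∫⁻ t in ball (0 : ℂ) R, Pool.Agent.R276.CP.lm ‖t - s‖ ∂m
        = ∫⁻ t in ball (0 : ℂ) R, ENNReal.ofReal (Real.posLog ‖t - s‖⁻¹) ∂m := by
          refine lintegral_congr_ae (ae_restrict_of_ae ?_)
          have h2 : ∀ᵐ t ∂m, t ≠ s := by
            rw [ae_iff]
            simpa using h0 s
          filter_upwards [h2] with t ht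
          unfold Pool.Agent.R276.CP.lm
          rw [if_neg (by simpa [sub_eq_zero] using ht)]
      _ ≤ C := hC s
      _ ≤ _ := by rw [ENNReal.coe_add]; exact le_self_add

/-- the perturbation theorems for an operator with the three cases -/
theorem of_tri {Y : Type} [NormedAddCommGroup Y] [NormedSpace ℂ Y] [CompleteSpace Y]
    (T : Y →L[ℂ] Y) (h : Tri T) : FiniteCouplings T ∧ NuclearCouplings T := by
  refine ⟨fun K hK => tri_fin T h K hK, ?_⟩
  obtain ⟨s, hs, hmain⟩ := tri_nuc T h
  refine ⟨s, hs, fun K f x hK hx => ?_⟩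
  have main := hmain K f x ⟨hK.1, hK.2, hK.3⟩ hx
  refine ⟨fun m hm => main m (logBd hm), main volume Pool.Agent.Y891.NK.main_vol.1, ?_⟩
  have h := main (Measure.map (fun t : ℝ => (t : ℂ)) volume) Pool.Agent.Y891.NK.main_vol.2
  exact ae_of_ae_map Complex.continuous_ofReal.measurable.aemeasurable h

/-- **Perturbations of Toeplitz operators have hyperinvariant subspaces.** -/
theorem result (X : Type) [NormedAddCommGroup X] [NormedSpace ℂ X] [CompleteSpace X] (e : ℤ → X)
    (ε₀ : X →L[ℂ] ℂ) (M : C(UnitAddCircle, ℂ) → (X →L[ℂ] X)) (P : X →L[ℂ] X)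
    (hX : CircleSpace e ε₀ M P) (φ : C(UnitAddCircle, ℂ)) (C α : ℝ≥0)
    (hα : 1 / 2 < α) (hφ : HolderWith C α φ) :
    ∃ T : hardy P →L[ℂ] hardy P, IsToeplitz M P φ T ∧
      FiniteCouplings T ∧ NuclearCouplings T ∧ (NonzeroWinding φ → LimitCouplings T) := by
  obtain ⟨L, q, hL, hq, hq2, hHD⟩ := HD_of_holder φ C α hα hφ
  have h := sio hX
  have hP : P * P = P := (Alg.main X e ε₀ M P h).1
  have hcomp : CompleteSpace (hardy P) := complete_hardy P
  have hcomp' : CompleteSpace (Pool.Agent.H43K.hardy P) := complete_hardy P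
  obtain ⟨T, hT⟩ : ∃ T : hardy P →L[ℂ] hardy P,
      ∀ y : hardy P, ((T y : hardy P) : X) = P (M φ (y : X)) :=
    ⟨(pr P hP).comp ((M φ).comp (hardy P).subtypeL), fun y => rfl⟩
  have hTri : Tri T := toep_tri h hP hT L q hL hq hq2 hHD
  obtain ⟨h1, h2⟩ := of_tri T hTri
  refine ⟨T, hT, h1, h2, ?_⟩
  rintro ⟨z, k, g, hk, hg⟩ K hK
  exact ind_lim T K (toep_ind h hP hT L q hL hq hq2 hHD z k g hk hg) hK

end Pool.Agent.Results.MP_5ac32f_an.ToeplitzCouplings
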